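import Pool.Agent.Lib.MP_c85420_an.Main

open Pool.MP_c85420_an in
/-- There is a Banach space of universal disposition for finite-dimensional spaces (a strong
Gurarii space) which is homogeneous with respect to its finite-dimensional subspaces but is not
of universal disposition for separable spaces. -/
theorem Pool.Agent.Results.MP_c85420_an.HomogeneousNotSepUD.result :
    ∃ (X : Type) (_ : NormedAddCommGroup X) (_ : NormedSpace ℝ X),
      CompleteSpace X ∧ UniversalDisposition finDim X ∧ Homogeneous finDim X ∧
        ¬ UniversalDisposition sepble X := by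
  have : Nonempty JJ := Ordinal.nonempty_toType_iff.2
    (Cardinal.isRegular_aleph_one.ord_pos).ne'
  let _ : OrderBot JJ := WellFoundedLT.toOrderBot JJ
  obtain ⟨i, P, hP⟩ := XX_proj (W := c0) (J := JJ)
  exact ⟨XX c0 JJ, inferInstance, inferInstance, XX_complete JJ_bdd, XX_UD FDExt_c0 JJ,
    XX_Hom FDExt_c0 JJ, not_UD_sep i P hP⟩
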